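import Mathlib
import Pool.Agent.Q48.PosQ.Defs
import Pool.Agent.Q48.PosQ.Main

/-!
The preorderings of the rational polynomials which are nonnegative on `[0, 2 ^ (1/3)]`, on
`[√2, √3]` and on `[-2 ^ (1/4), 2 ^ (1/4)]` are finitely generated.
-/

namespace Pool.Agent.Results.MP_57f692_ag.FinitelyGenerated

open Polynomial Q48.PosQ

/-- The three preorderings `Pos(K_i)` are finitely generated, by the natural generators, and
`x - 1` belongs to the second one. -/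
theorem result :
    Pos (Set.Icc 0 ((2 : ℝ) ^ (1 / 3 : ℝ))) = T ![X, 2 - X ^ 3] ∧
    Pos (Set.Icc (Real.sqrt 2) (Real.sqrt 3)) = T ![X, X ^ 2 - 2, 3 - X ^ 2] ∧
    Pos (Set.Icc (-(2 : ℝ) ^ (1 / 4 : ℝ)) ((2 : ℝ) ^ (1 / 4 : ℝ))) = T ![2 - X ^ 4] ∧
    X - 1 ∈ T ![X, X ^ 2 - 2, 3 - X ^ 2] := by
  have h2 : Pos (Set.Icc (Real.sqrt 2) (Real.sqrt 3)) = T ![X, X ^ 2 - 2, 3 - X ^ 2] :=
    case2 (Real.sqrt_pos.mpr (by norm_num)) (Real.sq_sqrt (by norm_num))
      (Real.sqrt_pos.mpr (by norm_num)) (Real.sq_sqrt (by norm_num))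
  refine ⟨case1 (by positivity) ?_, h2, case3 (by positivity) ?_, ?_⟩
  · rw [← Real.rpow_natCast, ← Real.rpow_mul (by norm_num)]
    norm_num
  · rw [← Real.rpow_natCast, ← Real.rpow_mul (by norm_num)]
    norm_num
  · rw [← h2]
    intro t ht
    have h1 : (1 : ℝ) ≤ Real.sqrt 2 := by
      rw [Real.one_le_sqrt]
      norm_num
    rw [map_sub, aeval_X, map_one]
    linarith [ht.1]

end Pool.Agent.Results.MP_57f692_ag.FinitelyGenerated
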